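import Pool.Agent.helper71.AA.B0

/-! # Project AA, module S3: divisor sum representations -/

namespace Pool.Agent.helper71.AA

open Finset

lemma S3_ind (Q : Finset ℕ) (M : Finset ℕ) (hM : M ⊆ Q) :
    Ex Q (fun A => if M ⊆ A then (1 : ℝ) else 0) = 1 / pr M := by
  have h1 : Ex Q (fun A => if M ⊆ A then (1 : ℝ) else 0) =
      Ex Q (fun A => (∏ _l ∈ A, (1 : ℝ)) * ∏ l ∈ Q \ A, (if l ∈ M then (0 : ℝ) else 1)) := by
    refine Ex_congr Q _ _ fun A hA => ?_
    simp only [prod_const_one, one_mul]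
    by_cases h : M ⊆ A
    · rw [if_pos h]
      refine (prod_eq_one fun l hl => ?_).symm
      rw [if_neg]
      intro hlM
      exact (mem_sdiff.1 hl).2 (h hlM)
    · rw [if_neg h]
      obtain ⟨l, hlM, hlA⟩ := not_subset.1 h
      refine (prod_eq_zero (mem_sdiff.2 ⟨hM hlM, hlA⟩) ?_).symm
      rw [if_pos hlM]
  rw [h1, Ex_prod Q (fun _ => (1 : ℝ)) (fun l => if l ∈ M then (0 : ℝ) else 1)]
  have h2 : ∀ l ∈ Q, ((1 : ℝ) / (l : ℝ) + (1 - 1 / (l : ℝ)) * (if l ∈ M then (0 : ℝ) else 1)) =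
      (if l ∈ M then (1 : ℝ) / (l : ℝ) else 1) := by
    intro l _
    by_cases h : l ∈ M
    · rw [if_pos h, if_pos h]; ring
    · rw [if_neg h, if_neg h]; ring
  rw [prod_congr rfl h2, prod_ite_mem, inter_eq_right.2 hM]
  unfold pr
  rw [prod_div_distrib, prod_const_one]

lemma S3_sum_powerset (Q A : Finset ℕ) (hA : A ⊆ Q) (f : Finset ℕ → ℝ) :
    ∑ D ∈ A.powerset, f D = ∑ D ∈ Q.powerset, (if D ⊆ A then f D else 0) := by
  rw [← sum_filter]
  refine sum_congr ?_ fun _ _ => rfl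
  ext D
  simp only [mem_filter, mem_powerset]
  exact ⟨fun h => ⟨h.trans hA, h⟩, fun h => h.2⟩

theorem Rep_Ex (Q : Finset ℕ) (hQ : ∀ l ∈ Q, 2 ≤ l) (F ξ : Finset ℕ → ℝ) (h : Rep Q F ξ)
    (L : Finset ℕ) (hL : L ⊆ Q) :
    Ex Q (fun A => if L ⊆ A then F A else 0) = ∑ D ∈ Q.powerset, ξ D / pr (D ∪ L) := by
  have h1 : Ex Q (fun A => if L ⊆ A then F A else 0) =
      Ex Q (fun A => ∑ D ∈ Q.powerset, ξ D * (if D ∪ L ⊆ A then (1 : ℝ) else 0)) := by
    refine Ex_congr Q _ _ fun A hA => ?_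
    by_cases hLA : L ⊆ A
    · rw [if_pos hLA, h A hA, S3_sum_powerset Q A hA]
      refine sum_congr rfl fun D _ => ?_
      by_cases hD : D ⊆ A
      · rw [if_pos hD, if_pos (union_subset hD hLA), mul_one]
      · rw [if_neg hD, if_neg (fun h' => hD (union_subset_iff.1 h').1), mul_zero]
    · rw [if_neg hLA]
      refine (sum_eq_zero fun D _ => ?_).symm
      rw [if_neg (fun h' => hLA (union_subset_iff.1 h').2), mul_zero]
  rw [h1, Ex_sum Q Q.powerset (fun D A => ξ D * (if D ∪ L ⊆ A then (1 : ℝ) else 0))]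
  refine sum_congr rfl fun D hD => ?_
  rw [Ex_mul Q (ξ D) (fun A => if D ∪ L ⊆ A then (1 : ℝ) else 0),
    S3_ind Q (D ∪ L) (union_subset (mem_powerset.1 hD) hL)]
  ring

/-- products of representations -/
lemma S3_mul (Q : Finset ℕ) (F F' ξ ζ : Finset ℕ → ℝ) (h : Rep Q F ξ) (h' : Rep Q F' ζ) :
    ∃ χ : Finset ℕ → ℝ, Rep Q (fun A => F A * F' A) χ ∧
      ∑ M ∈ Q.powerset, |χ M| ≤ (∑ D ∈ Q.powerset, |ξ D|) * ∑ E ∈ Q.powerset, |ζ E| := by
  refine ⟨fun M => ∑ D ∈ Q.powerset, ∑ E ∈ Q.powerset,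
    (if D ∪ E = M then ξ D * ζ E else 0), ?_, ?_⟩
  · intro A hA
    simp only
    rw [h A hA, h' A hA, S3_sum_powerset Q A hA ξ, S3_sum_powerset Q A hA ζ, sum_mul_sum]
    symm
    rw [sum_comm]
    refine sum_congr rfl fun D hD => ?_
    rw [sum_comm]
    refine sum_congr rfl fun E hE => ?_
    by_cases hU : D ∪ E ⊆ A
    · rw [if_pos (union_subset_iff.1 hU).1, if_pos (union_subset_iff.1 hU).2,
        sum_ite_eq, if_pos (mem_powerset.2 hU)]
    · have h3 : ∑ M ∈ A.powerset, (if D ∪ E = M then ξ D * ζ E else 0) = 0 := by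
        rw [sum_ite_eq, if_neg (fun h4 => hU (mem_powerset.1 h4))]
      rw [h3]
      by_cases hD' : D ⊆ A
      · by_cases hE' : E ⊆ A
        · exact absurd (union_subset hD' hE') hU
        · rw [if_neg hE', mul_zero]
      · rw [if_neg hD', zero_mul]
  · calc ∑ M ∈ Q.powerset, |∑ D ∈ Q.powerset, ∑ E ∈ Q.powerset,
          (if D ∪ E = M then ξ D * ζ E else 0)|
        ≤ ∑ M ∈ Q.powerset, ∑ D ∈ Q.powerset, ∑ E ∈ Q.powerset,
          (if D ∪ E = M then |ξ D| * |ζ E| else 0) := by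
          refine sum_le_sum fun M _ => ?_
          refine (abs_sum_le_sum_abs _ _).trans (sum_le_sum fun D _ => ?_)
          refine (abs_sum_le_sum_abs _ _).trans (sum_le_sum fun E _ => ?_)
          split_ifs
          · rw [abs_mul]
          · rw [abs_zero]
      _ = ∑ D ∈ Q.powerset, ∑ E ∈ Q.powerset, |ξ D| * |ζ E| := by
          rw [sum_comm]
          refine sum_congr rfl fun D hD => ?_
          rw [sum_comm]
          refine sum_congr rfl fun E hE => ?_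
          rw [sum_ite_eq, if_pos (mem_powerset.2
            (union_subset (mem_powerset.1 hD) (mem_powerset.1 hE)))]
      _ = _ := by rw [sum_mul_sum]

lemma S3_ch (K A : Finset ℕ) :
    ch K A = ∑ D ∈ K.powerset, (if D ⊆ A then ∏ l ∈ D, (-(l : ℝ)) else 0) := by
  have h1 : ch K A = ∏ l ∈ K, (1 + (if l ∈ A then -(l : ℝ) else 0)) := by
    unfold ch
    refine prod_congr rfl fun l _ => ?_
    split_ifs <;> ring
  rw [h1, prod_one_add]
  refine sum_congr rfl fun D _ => ?_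
  by_cases h : D ⊆ A
  · rw [if_pos h]
    exact prod_congr rfl fun l hl => by rw [if_pos (h hl)]
  · rw [if_neg h]
    obtain ⟨l, hlD, hlA⟩ := not_subset.1 h
    exact prod_eq_zero hlD (if_neg hlA)

lemma S3_ph_pos (K : Finset ℕ) (hK : ∀ l ∈ K, 3 ≤ l) : 0 < ph K := by
  unfold ph
  refine prod_pos fun l hl => ?_
  have : (3 : ℝ) ≤ l := by exact_mod_cast hK l hl
  linarith

/-- the representation of Selberg's sum -/
lemma S3_Sg (Q : Finset ℕ) (hQ : ∀ l ∈ Q, 3 ≤ l) (R : ℝ) :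
    ∃ ξ : Finset ℕ → ℝ, Rep Q (Sg Q R) ξ ∧
      ∑ D ∈ Q.powerset, |ξ D| ≤ ∑ K ∈ Sub Q R, (2 : ℝ) ^ K.card := by
  have hS : ∀ K ∈ Sub Q R, K ⊆ Q := fun K hK => mem_powerset.1 (mem_filter.1 hK).1
  refine ⟨fun D => ∑ K ∈ Sub Q R, (if D ⊆ K then (∏ l ∈ D, (-(l : ℝ))) / ph K else 0), ?_, ?_⟩
  · intro A hA
    unfold Sg
    rw [sum_comm]
    refine sum_congr rfl fun K hK => ?_
    rw [S3_ch, S3_sum_powerset Q A hA, S3_sum_powerset Q K (hS K hK), sum_div]
    refine sum_congr rfl fun D _ => ?_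
    by_cases h1 : D ⊆ A
    · by_cases h2 : D ⊆ K
      · simp only [if_pos h1, if_pos h2]
      · simp only [if_pos h1, if_neg h2, zero_div]
    · by_cases h2 : D ⊆ K
      · simp only [if_neg h1, if_pos h2, zero_div]
      · simp only [if_neg h1, if_neg h2, zero_div]
  · calc ∑ D ∈ Q.powerset, |∑ K ∈ Sub Q R, (if D ⊆ K then (∏ l ∈ D, (-(l : ℝ))) / ph K else 0)|
        ≤ ∑ D ∈ Q.powerset, ∑ K ∈ Sub Q R, (if D ⊆ K then (∏ l ∈ D, (l : ℝ)) / ph K else 0) := by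
          refine sum_le_sum fun D _ => ?_
          refine (abs_sum_le_sum_abs _ _).trans (sum_le_sum fun K hK => ?_)
          split_ifs
          · rw [abs_div, abs_of_pos (S3_ph_pos K (fun l hl => hQ l (hS K hK hl))), abs_prod]
            refine le_of_eq ?_
            congr 1
            refine prod_congr rfl fun l _ => ?_
            rw [abs_neg, abs_of_nonneg (Nat.cast_nonneg l)]
          · rw [abs_zero]
      _ = ∑ K ∈ Sub Q R, ∑ D ∈ K.powerset, (∏ l ∈ D, (l : ℝ)) / ph K := by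
          rw [sum_comm]
          refine sum_congr rfl fun K hK => ?_
          rw [S3_sum_powerset Q K (hS K hK)]
      _ = ∑ K ∈ Sub Q R, ∏ l ∈ K, ((1 + (l : ℝ)) / ((l : ℝ) - 1)) := by
          refine sum_congr rfl fun K _ => ?_
          rw [← sum_div, ← prod_one_add, prod_div_distrib]
          rfl
      _ ≤ ∑ K ∈ Sub Q R, (2 : ℝ) ^ K.card := by
          refine sum_le_sum fun K hK => ?_
          rw [← prod_const]
          refine prod_le_prod (fun l hl => ?_) (fun l hl => ?_)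
          · have : (3 : ℝ) ≤ l := by exact_mod_cast hQ l (hS K hK hl)
            apply div_nonneg <;> linarith
          · have : (3 : ℝ) ≤ l := by exact_mod_cast hQ l (hS K hK hl)
            rw [div_le_iff₀ (by linarith)]
            linarith

lemma S3_pairs (N : ℕ) (R : ℝ) (hR : 1 ≤ R) (hN : N = ⌊R⌋₊) :
    ((((Icc 1 N ×ˢ Icc 1 N).filter (fun t : ℕ × ℕ => t.1 * t.2 ≤ N)).card : ℕ) : ℝ) ≤
      R * (1 + Real.log R) := by
  have h1 : ((Icc 1 N ×ˢ Icc 1 N).filter (fun t : ℕ × ℕ => t.1 * t.2 ≤ N)).card =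
      ∑ a ∈ Icc 1 N, ((Icc 1 N).filter (fun b => a * b ≤ N)).card := by
    rw [card_filter, sum_product]
    refine sum_congr rfl fun a _ => ?_
    rw [card_filter]
  have h2 : ∀ a ∈ Icc 1 N, ((((Icc 1 N).filter (fun b => a * b ≤ N)).card : ℕ) : ℝ) ≤
      (N : ℝ) * (a : ℝ)⁻¹ := by
    intro a ha
    have ha1 : 0 < a := (mem_Icc.1 ha).1
    have h3 : (Icc 1 N).filter (fun b => a * b ≤ N) ⊆ Icc 1 (N / a) := by
      intro b hb
      rw [mem_filter, mem_Icc] at hb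
      rw [mem_Icc]
      refine ⟨hb.1.1, ?_⟩
      rw [Nat.le_div_iff_mul_le ha1, mul_comm]
      exact hb.2
    have h4 := card_le_card h3
    rw [Nat.card_Icc, Nat.add_sub_cancel] at h4
    calc ((((Icc 1 N).filter (fun b => a * b ≤ N)).card : ℕ) : ℝ) ≤ ((N / a : ℕ) : ℝ) := by
          exact_mod_cast h4
      _ ≤ (N : ℝ) / (a : ℝ) := Nat.cast_div_le
      _ = _ := by rw [div_eq_mul_inv]
  rw [h1, Nat.cast_sum]
  refine (sum_le_sum h2).trans ?_
  rw [← mul_sum]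
  have h5 : ∑ a ∈ Icc 1 N, (a : ℝ)⁻¹ ≤ 1 + Real.log R := by
    have h6 := harmonic_floor_le_one_add_log R hR
    rw [harmonic_eq_sum_Icc] at h6
    push_cast at h6
    rw [hN]
    exact h6
  have h7 : (N : ℝ) ≤ R := by rw [hN]; exact Nat.floor_le (by linarith)
  have h8 : 0 ≤ Real.log R := Real.log_nonneg hR
  calc (N : ℝ) * ∑ a ∈ Icc 1 N, (a : ℝ)⁻¹ ≤ (N : ℝ) * (1 + Real.log R) :=
        mul_le_mul_of_nonneg_left h5 (Nat.cast_nonneg N)
    _ ≤ R * (1 + Real.log R) := mul_le_mul_of_nonneg_right h7 (by linarith)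

lemma S3_prod_inj (D E : Finset ℕ) (hD : ∀ l ∈ D, l.Prime) (hE : ∀ l ∈ E, l.Prime)
    (h : ∏ l ∈ D, l = ∏ l ∈ E, l) : D = E := by
  have h1 := Nat.primeFactors_prod hD
  have h2 := Nat.primeFactors_prod hE
  rw [← h1, h, h2]

lemma S3_count (Q : Finset ℕ) (hQ : ∀ l ∈ Q, l.Prime) (R : ℝ) (hR : 1 ≤ R) :
    ∑ K ∈ Sub Q R, (2 : ℝ) ^ K.card ≤ R * (1 + Real.log R) := by
  have hS : ∀ K ∈ Sub Q R, K ⊆ Q := fun K hK => mem_powerset.1 (mem_filter.1 hK).1
  refine le_trans ?_ (S3_pairs ⌊R⌋₊ R hR rfl)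
  have h1 : ∑ K ∈ Sub Q R, (2 : ℝ) ^ K.card =
      ((((Sub Q R).sigma (fun K => K.powerset)).card : ℕ) : ℝ) := by
    rw [card_sigma, Nat.cast_sum]
    refine sum_congr rfl fun K _ => ?_
    rw [card_powerset]
    push_cast
    rfl
  rw [h1]
  norm_cast
  refine card_le_card_of_injOn (fun t => (∏ l ∈ t.2, l, ∏ l ∈ t.1 \ t.2, l)) ?_ ?_
  · rintro ⟨K, D⟩ ht
    have ht' := mem_sigma.1 (mem_coe.1 ht)
    simp only at ht'
    obtain ⟨hK, hD⟩ := ht'
    rw [mem_powerset] at hD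
    have hKQ := hS K hK
    have h2 : (∏ l ∈ D, l) * ∏ l ∈ K \ D, l = ∏ l ∈ K, l := by
      rw [mul_comm]
      exact prod_sdiff hD
    have h3 : ∏ l ∈ K, l ≤ ⌊R⌋₊ := by
      apply Nat.le_floor
      have h4 : pr K ≤ R := (mem_filter.1 hK).2
      unfold pr at h4
      push_cast
      exact h4
    have h5 : 0 < ∏ l ∈ D, l := prod_pos fun l hl => (hQ l (hKQ (hD hl))).pos
    have h6 : 0 < ∏ l ∈ K \ D, l := prod_pos fun l hl =>
      (hQ l (hKQ (mem_sdiff.1 hl).1)).pos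
    rw [mem_coe, mem_filter, mem_product, mem_Icc, mem_Icc]
    refine ⟨⟨⟨h5, ?_⟩, ⟨h6, ?_⟩⟩, ?_⟩
    · exact (Nat.le_mul_of_pos_right _ h6).trans (h2 ▸ h3)
    · exact (Nat.le_mul_of_pos_left _ h5).trans (h2 ▸ h3)
    · rw [h2]; exact h3
  · rintro ⟨K, D⟩ ht ⟨K', D'⟩ ht' he
    have hm := mem_sigma.1 (mem_coe.1 ht)
    have hm' := mem_sigma.1 (mem_coe.1 ht')
    simp only [mem_powerset] at hm hm'
    simp only [Prod.mk.injEq] at he
    have hD : D = D' := S3_prod_inj D D' (fun l hl => hQ l (hS K hm.1 (hm.2 hl)))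
      (fun l hl => hQ l (hS K' hm'.1 (hm'.2 hl))) he.1
    have hE : K \ D = K' \ D' := S3_prod_inj (K \ D) (K' \ D')
      (fun l hl => hQ l (hS K hm.1 (mem_sdiff.1 hl).1))
      (fun l hl => hQ l (hS K' hm'.1 (mem_sdiff.1 hl).1)) he.2
    have hK : K = K' := by
      rw [← sdiff_union_of_subset hm.2, ← sdiff_union_of_subset hm'.2, hE, hD]
    subst hK
    subst hD
    rfl

/-- the representation of the weight function -/
lemma S3_Vf (c : ℝ) (v : ℕ → ℝ) (A : Finset ℕ) :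
    ∑ D ∈ A.powerset, (if D.card = 0 then c else if D.card = 1 then ∑ l ∈ D, v l else 0) =
      Vf c v A := by
  unfold Vf
  induction A using Finset.induction_on with
  | empty => simp
  | insert a s ha ih =>
    rw [sum_powerset_insert ha, ih, sum_insert ha]
    have h1 : ∑ t ∈ s.powerset, (if (insert a t).card = 0 then c else
        if (insert a t).card = 1 then ∑ l ∈ insert a t, v l else 0) = v a := by
      rw [sum_eq_single ∅]
      · simp
      · intro t ht hne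
        have hat : a ∉ t := fun h => ha (mem_powerset.1 ht h)
        have hc : 0 < t.card := card_pos.2 (nonempty_iff_ne_empty.2 hne)
        rw [card_insert_of_notMem hat, if_neg (by omega), if_neg (by omega)]
      · intro h
        exact absurd (empty_mem_powerset s) h
    rw [h1]
    ring

theorem exists_Rep (w Z : ℕ) (hw : 2 ≤ w) (Q : Finset ℕ) (hQ : Q ⊆ Qs w Z) (R c : ℝ) (hR : 1 ≤ R)
    (hc : 0 ≤ c) (v : ℕ → ℝ) (hv : ∀ l, 0 ≤ v l) : ∃ ξ : Finset ℕ → ℝ, Rep Q (Ff Q R c v) ξ ∧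
      ∑ D ∈ Q.powerset, |ξ D| ≤ (R * (1 + Real.log R)) ^ 2 * (c + ∑ l ∈ Q, v l) := by
  have hP : ∀ l ∈ Q, l.Prime := fun l hl => (mem_filter.1 (hQ hl)).2
  have h3 : ∀ l ∈ Q, 3 ≤ l := by
    intro l hl
    have := (mem_Ioc.1 (mem_filter.1 (hQ hl)).1).1
    omega
  obtain ⟨ξ, hξ, hm⟩ := S3_Sg Q h3 R
  have hm' : ∑ D ∈ Q.powerset, |ξ D| ≤ R * (1 + Real.log R) := hm.trans (S3_count Q hP R hR)
  obtain ⟨χ, hχ, hmχ⟩ := S3_mul Q _ _ ξ ξ hξ hξ
  have hV : Rep Q (Vf c v)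
      (fun D => if D.card = 0 then c else if D.card = 1 then ∑ l ∈ D, v l else 0) := by
    intro A _
    exact (S3_Vf c v A).symm
  have hmV : ∑ D ∈ Q.powerset,
      |(if D.card = 0 then c else if D.card = 1 then ∑ l ∈ D, v l else 0)| =
      c + ∑ l ∈ Q, v l := by
    rw [sum_congr rfl (fun D _ => abs_of_nonneg (?_ : (0 : ℝ) ≤
      (if D.card = 0 then c else if D.card = 1 then ∑ l ∈ D, v l else 0))), S3_Vf]
    · rfl
    · split_ifs
      · exact hc
      · exact sum_nonneg fun l _ => hv l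
      · exact le_refl 0
  obtain ⟨θ, hθ, hmθ⟩ := S3_mul Q _ _ χ _ hχ hV
  refine ⟨θ, ?_, ?_⟩
  · intro A hA
    rw [← hθ A hA]
    unfold Ff
    ring
  · rw [hmV] at hmθ
    refine hmθ.trans (mul_le_mul_of_nonneg_right (hmχ.trans ?_)
      (add_nonneg hc (sum_nonneg fun l _ => hv l)))
    have h0 : (0 : ℝ) ≤ ∑ D ∈ Q.powerset, |ξ D| := sum_nonneg fun _ _ => abs_nonneg _
    rw [sq]
    exact mul_le_mul hm' hm' h0 (h0.trans hm')

end Pool.Agent.helper71.AA
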