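import Pool.Agent.helper13.AA.S3
import Pool.Agent.helper71.AA.S2

/-! # Project AA, module S4: the coefficients of the orthogonal expansion -/

namespace Pool.Agent.helper71.AA

open Finset

theorem Th_empty (Q : Finset ℕ) (hQ : ∀ l ∈ Q, 2 ≤ l) (F ξ : Finset ℕ → ℝ) (h : Rep Q F ξ) :
    Th Q ξ ∅ = Ex Q F := by
  have h1 := Rep_Ex Q hQ F ξ h ∅ (empty_subset Q)
  have h2 : Ex Q (fun A => if ∅ ⊆ A then F A else 0) = Ex Q F :=
    Ex_congr Q _ _ fun A _ => if_pos (empty_subset A)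
  rw [← h2, h1]
  unfold Th
  rw [filter_true_of_mem (fun D _ => empty_subset D)]
  exact sum_congr rfl fun D _ => by rw [union_empty]

lemma S4_pr_pos (K : Finset ℕ) (hK : ∀ l ∈ K, 2 ≤ l) : 0 < pr K := by
  unfold pr
  refine prod_pos fun l hl => ?_
  have : (2 : ℝ) ≤ l := by exact_mod_cast hK l hl
  linarith

lemma S4_ph_pos (K : Finset ℕ) (hK : ∀ l ∈ K, 2 ≤ l) : 0 < ph K := by
  unfold ph
  refine prod_pos fun l hl => ?_
  have : (2 : ℝ) ≤ l := by exact_mod_cast hK l hl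
  linarith

lemma S4_div (D L : Finset ℕ) (hD : ∀ l ∈ D, 2 ≤ l) (hL : ∀ l ∈ L, 2 ≤ l) :
    pr L / pr (D ∪ L) = (∏ l ∈ L, (if l ∈ D then (l : ℝ) else 1)) / pr D := by
  have h1 : pr (D ∪ L) * pr (D ∩ L) = pr D * pr L := by
    unfold pr
    exact prod_union_inter
  have h2 : ∏ l ∈ L, (if l ∈ D then (l : ℝ) else 1) = pr (D ∩ L) := by
    rw [prod_ite_mem, inter_comm]
    rfl
  have h3 : 0 < pr (D ∪ L) := S4_pr_pos _ fun l hl => by
    rcases mem_union.1 hl with h | h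
    · exact hD l h
    · exact hL l h
  have h4 : 0 < pr D := S4_pr_pos _ hD
  rw [h2, div_eq_div_iff h3.ne' h4.ne']
  linarith

lemma S4_alt (D K : Finset ℕ) (hD : ∀ l ∈ D, 2 ≤ l) (hK : ∀ l ∈ K, 2 ≤ l) :
    ∑ L ∈ K.powerset, (∏ _l ∈ K \ L, (-1 : ℝ)) * (pr L / pr (D ∪ L)) =
      (if K ⊆ D then ph K / pr D else 0) := by
  have h1 : ∑ L ∈ K.powerset, (∏ _l ∈ K \ L, (-1 : ℝ)) * (pr L / pr (D ∪ L)) =
      (∏ l ∈ K, ((if l ∈ D then (l : ℝ) else 1) + (-1))) / pr D := by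
    rw [prod_add, sum_div]
    refine sum_congr rfl fun L hL => ?_
    rw [S4_div D L hD fun l hl => hK l (mem_powerset.1 hL hl)]
    ring
  rw [h1]
  by_cases h : K ⊆ D
  · rw [if_pos h]
    congr 1
    unfold ph
    refine prod_congr rfl fun l hl => ?_
    rw [if_pos (h hl)]
    ring
  · rw [if_neg h]
    obtain ⟨l, hlK, hlD⟩ := not_subset.1 h
    rw [prod_eq_zero hlK (by rw [if_neg hlD]; ring), zero_div]

lemma S4_id (Q : Finset ℕ) (hQ : ∀ l ∈ Q, 2 ≤ l) (F ξ : Finset ℕ → ℝ) (h : Rep Q F ξ)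
    (K : Finset ℕ) (hK : K ⊆ Q) :
    ph K * Th Q ξ K = ∑ L ∈ K.powerset, (∏ _l ∈ K \ L, (-1 : ℝ)) *
      (pr L * Ex Q (fun A => if L ⊆ A then F A else 0)) := by
  have h1 : ∀ L ∈ K.powerset, (∏ _l ∈ K \ L, (-1 : ℝ)) *
      (pr L * Ex Q (fun A => if L ⊆ A then F A else 0)) =
      ∑ D ∈ Q.powerset, ξ D * ((∏ _l ∈ K \ L, (-1 : ℝ)) * (pr L / pr (D ∪ L))) := by
    intro L hL
    rw [Rep_Ex Q hQ F ξ h L ((mem_powerset.1 hL).trans hK), mul_sum, mul_sum]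
    refine sum_congr rfl fun D _ => ?_
    ring
  rw [sum_congr rfl h1, sum_comm]
  unfold Th
  rw [mul_sum, sum_filter]
  refine sum_congr rfl fun D hD => ?_
  rw [← mul_sum, S4_alt D K (fun l hl => hQ l (mem_powerset.1 hD hl)) (fun l hl => hQ l (hK hl))]
  split_ifs
  · ring
  · ring

theorem Th_bound (Q : Finset ℕ) (hQ : ∀ l ∈ Q, 2 ≤ l) (F ξ : Finset ℕ → ℝ) (h : Rep Q F ξ)
    (hF : ∀ A ⊆ Q, 0 ≤ F A) (K : Finset ℕ) (hK : K ⊆ Q) :
    |Th Q ξ K| ≤ 1 / ph K *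
      ∑ L ∈ K.powerset, pr L * Ex Q (fun A => if L ⊆ A then F A else 0) := by
  have hp : 0 < ph K := S4_ph_pos K fun l hl => hQ l (hK hl)
  have h1 := S4_id Q hQ F ξ h K hK
  have h2 : Th Q ξ K = 1 / ph K * ∑ L ∈ K.powerset, (∏ _l ∈ K \ L, (-1 : ℝ)) *
      (pr L * Ex Q (fun A => if L ⊆ A then F A else 0)) := by
    rw [← h1]
    field_simp
  rw [h2, abs_mul, abs_of_pos (one_div_pos.2 hp)]
  refine mul_le_mul_of_nonneg_left ?_ (one_div_pos.2 hp).le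
  refine (abs_sum_le_sum_abs _ _).trans (sum_le_sum fun L hL => ?_)
  have h3 : 0 ≤ Ex Q (fun A => if L ⊆ A then F A else 0) := by
    refine Ex_nonneg Q hQ _ fun A hA => ?_
    split_ifs
    · exact hF A hA
    · exact le_refl 0
  have h4 : 0 < pr L := S4_pr_pos L fun l hl => hQ l (hK (mem_powerset.1 hL hl))
  rw [abs_mul, abs_prod, abs_of_nonneg (mul_nonneg h4.le h3)]
  simp

lemma S4_one (Q : Finset ℕ) (hQ : ∀ l ∈ Q, 2 ≤ l) (R c : ℝ) (hc : 0 ≤ c) (v : ℕ → ℝ)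
    (hv : ∀ l, 0 ≤ v l ∧ v l ≤ 1)
    (hS : ∀ L : Finset ℕ, L ⊆ Q →
      pr L * Ex Q (fun A => if L ⊆ A then Sg Q R A ^ 2 else 0) ≤ 4 ^ L.card * Gs Q R)
    (L : Finset ℕ) (hL : L ⊆ Q) :
    pr L * Ex Q (fun A => if L ⊆ A then Ff Q R c v A else 0) ≤
      ((c + 1 + 4 * ∑ l ∈ Q, v l / l) * Gs Q R) * 8 ^ L.card := by
  have hpL : 0 < pr L := S4_pr_pos L fun l hl => hQ l (hL hl)
  have hG : 0 ≤ Gs Q R := sum_nonneg fun K hK => one_div_nonneg.2
    (S4_ph_pos K fun l hl => hQ l (mem_powerset.1 (mem_filter.1 hK).1 hl)).le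
  have hs : 0 ≤ ∑ l ∈ Q, v l / l := sum_nonneg fun l _ => div_nonneg (hv l).1 (Nat.cast_nonneg l)
  set s : ℝ := ∑ l ∈ Q, v l / l with hsdef
  -- pointwise bound
  have h1 : Ex Q (fun A => if L ⊆ A then Ff Q R c v A else 0) ≤
      Ex Q (fun A => (c + L.card) * (if L ⊆ A then Sg Q R A ^ 2 else 0) +
        ∑ l ∈ Q \ L, v l * (if insert l L ⊆ A then Sg Q R A ^ 2 else 0)) := by
    refine Ex_mono Q hQ _ _ fun A hA => ?_
    by_cases hLA : L ⊆ A
    · simp only [if_pos hLA]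
      have h2 : ∑ l ∈ Q \ L, v l * (if insert l L ⊆ A then Sg Q R A ^ 2 else 0) =
          Sg Q R A ^ 2 * ∑ l ∈ A \ L, v l := by
        rw [mul_sum]
        have h3 : A \ L ⊆ Q \ L := sdiff_subset_sdiff hA (le_refl _)
        rw [← sum_subset h3 (f := fun l => v l * (if insert l L ⊆ A then Sg Q R A ^ 2 else 0))]
        · refine sum_congr rfl fun l hl => ?_
          rw [if_pos (insert_subset (mem_sdiff.1 hl).1 hLA)]
          ring
        · intro l hl hl'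
          have hlA : l ∉ A := fun h => hl' (mem_sdiff.2 ⟨h, (mem_sdiff.1 hl).2⟩)
          rw [if_neg (fun h => hlA (h (mem_insert_self l L))), mul_zero]
      rw [h2]
      unfold Ff Vf
      have h4 : ∑ l ∈ A, v l = ∑ l ∈ A \ L, v l + ∑ l ∈ L, v l := (sum_sdiff hLA).symm
      have h5 : ∑ l ∈ L, v l ≤ (L.card : ℝ) := by
        refine (sum_le_sum fun l _ => (hv l).2).trans ?_
        simp
      have h6 : 0 ≤ Sg Q R A ^ 2 := sq_nonneg _
      rw [h4]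
      nlinarith [mul_le_mul_of_nonneg_left h5 h6]
    · simp only [if_neg hLA, mul_zero, zero_add]
      refine le_of_eq (sum_eq_zero fun l _ => ?_).symm
      rw [if_neg (fun h => hLA ((subset_insert l L).trans h)), mul_zero]
  rw [Ex_add Q (fun A => (c + L.card) * (if L ⊆ A then Sg Q R A ^ 2 else 0))
    (fun A => ∑ l ∈ Q \ L, v l * (if insert l L ⊆ A then Sg Q R A ^ 2 else 0)),
    Ex_mul Q (c + L.card) (fun A => if L ⊆ A then Sg Q R A ^ 2 else 0),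
    Ex_sum Q (Q \ L) (fun l A => v l * (if insert l L ⊆ A then Sg Q R A ^ 2 else 0))] at h1
  have h7 : ∀ l ∈ Q \ L, pr L * Ex Q (fun A => v l * (if insert l L ⊆ A then Sg Q R A ^ 2 else 0))
      ≤ v l / l * (4 * (4 ^ L.card * Gs Q R)) := by
    intro l hl
    have hlQ : l ∈ Q := (mem_sdiff.1 hl).1
    have hlL : l ∉ L := (mem_sdiff.1 hl).2
    have hl2 : (2 : ℝ) ≤ l := by exact_mod_cast hQ l hlQ
    rw [Ex_mul Q (v l) (fun A => if insert l L ⊆ A then Sg Q R A ^ 2 else 0)]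
    have h8 := hS (insert l L) (insert_subset hlQ hL)
    rw [card_insert_of_notMem hlL, pow_succ] at h8
    have h9 : pr (insert l L) = l * pr L := by
      unfold pr
      rw [prod_insert hlL]
    rw [h9] at h8
    have h10 : 0 ≤ v l / l := div_nonneg (hv l).1 (by linarith)
    have h11 := mul_le_mul_of_nonneg_left h8 h10
    have h12 : pr L * (v l * Ex Q (fun A => if insert l L ⊆ A then Sg Q R A ^ 2 else 0)) =
        v l / l * (l * pr L * Ex Q (fun A => if insert l L ⊆ A then Sg Q R A ^ 2 else 0)) := by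
      field_simp
    rw [h12]
    refine h11.trans (le_of_eq ?_)
    ring
  have h13 := hS L hL
  have h14 : pr L * Ex Q (fun A => if L ⊆ A then Ff Q R c v A else 0) ≤
      (c + L.card) * (4 ^ L.card * Gs Q R) + s * (4 * (4 ^ L.card * Gs Q R)) := by
    refine (mul_le_mul_of_nonneg_left h1 hpL.le).trans ?_
    rw [mul_add]
    refine add_le_add ?_ ?_
    · have hcL : (0 : ℝ) ≤ c + L.card := by positivity
      have h15 := mul_le_mul_of_nonneg_left h13 hcL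
      refine le_trans (le_of_eq ?_) h15
      ring
    · rw [mul_sum]
      refine (sum_le_sum h7).trans ?_
      rw [← sum_mul]
      refine mul_le_mul_of_nonneg_right ?_ (by positivity)
      exact sum_le_sum_of_subset_of_nonneg sdiff_subset fun l _ _ =>
        div_nonneg (hv l).1 (Nat.cast_nonneg l)
  refine h14.trans ?_
  have h16 : (8 : ℝ) ^ L.card = 2 ^ L.card * 4 ^ L.card := by
    rw [← mul_pow]; norm_num
  have h17 : (L.card : ℝ) ≤ 2 ^ L.card := by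
    exact_mod_cast Nat.lt_two_pow_self.le
  have h18 : (1 : ℝ) ≤ 2 ^ L.card := one_le_pow₀ (by norm_num)
  have h19 : c + L.card + 4 * s ≤ (c + 1 + 4 * s) * 2 ^ L.card := by
    have h20 : 0 ≤ c + 4 * s := by positivity
    nlinarith [mul_le_mul_of_nonneg_left h18 h20]
  have h21 : 0 ≤ 4 ^ L.card * Gs Q R := by positivity
  have h22 := mul_le_mul_of_nonneg_right h19 h21
  rw [h16]
  nlinarith [h22]

theorem Th_Ff_of (Q : Finset ℕ) (hQ : ∀ l ∈ Q, 2 ≤ l) (R c : ℝ) (hc : 0 ≤ c) (v : ℕ → ℝ)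
    (hv : ∀ l, 0 ≤ v l ∧ v l ≤ 1) (ξ : Finset ℕ → ℝ) (h : Rep Q (Ff Q R c v) ξ)
    (hS : ∀ L : Finset ℕ, L ⊆ Q →
      pr L * Ex Q (fun A => if L ⊆ A then Sg Q R A ^ 2 else 0) ≤ 4 ^ L.card * Gs Q R)
    (K : Finset ℕ) (hK : K ⊆ Q) :
    |Th Q ξ K| ≤ ((c + 1 + 4 * ∑ l ∈ Q, v l / l) * Gs Q R) * (9 ^ K.card / ph K) := by
  have hp : 0 < ph K := S4_ph_pos K fun l hl => hQ l (hK hl)
  have hF : ∀ A ⊆ Q, 0 ≤ Ff Q R c v A := by
    intro A _
    unfold Ff Vf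
    exact mul_nonneg (sq_nonneg _) (add_nonneg hc (sum_nonneg fun l _ => (hv l).1))
  refine (Th_bound Q hQ _ ξ h hF K hK).trans ?_
  have h1 : ∑ L ∈ K.powerset, pr L * Ex Q (fun A => if L ⊆ A then Ff Q R c v A else 0) ≤
      ((c + 1 + 4 * ∑ l ∈ Q, v l / l) * Gs Q R) * 9 ^ K.card := by
    refine (sum_le_sum fun L hL => S4_one Q hQ R c hc v hv hS L
      ((mem_powerset.1 hL).trans hK)).trans ?_
    rw [← mul_sum]
    have h2 := Finset.sum_pow_mul_eq_add_pow (8 : ℝ) 1 K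
    simp only [one_pow, mul_one] at h2
    rw [h2]
    norm_num
  calc 1 / ph K * ∑ L ∈ K.powerset, pr L * Ex Q (fun A => if L ⊆ A then Ff Q R c v A else 0)
      ≤ 1 / ph K * (((c + 1 + 4 * ∑ l ∈ Q, v l / l) * Gs Q R) * 9 ^ K.card) :=
        mul_le_mul_of_nonneg_left h1 (one_div_pos.2 hp).le
    _ = _ := by ring

theorem Th_Ff (Q : Finset ℕ) (hQ : ∀ l ∈ Q, 2 ≤ l) (R c : ℝ) (hc : 0 ≤ c) (v : ℕ → ℝ)
    (hv : ∀ l, 0 ≤ v l ∧ v l ≤ 1) (ξ : Finset ℕ → ℝ) (h : Rep Q (Ff Q R c v) ξ)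
    (K : Finset ℕ) (hK : K ⊆ Q) :
    |Th Q ξ K| ≤ ((c + 1 + 4 * ∑ l ∈ Q, v l / l) * Gs Q R) * (9 ^ K.card / ph K) :=
  Th_Ff_of Q hQ R c hc v hv ξ h (fun L hL => Ex_Sg_le Q L hL hQ R) K hK

end Pool.Agent.helper71.AA
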